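import Pool.Agent.Helper55.RT.Spec

/-!
# Thin, part ABP: `Y ^ p - S(X)` is absolutely irreducible
-/

set_option autoImplicit false

open Polynomial IsDedekindDomain
open scoped Classical

namespace Pool.Agent.Helper56.Thin.ABP

open Pool.Agent.Helper55.RT

theorem main : Q_ABP := by
  intro p hp k k' _ _ _ _ _ κ₀ s hs hroots S hS hdvd hfree hS1
  have hp' : p.Prime := hp.out
  haveI : CharZero k' := charZero_of_injective_algebraMap (algebraMap k k').injective
  haveI : IsSepClosed k' := IsSepClosure.sep_closed k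
  haveI : IsAlgClosed k' := inferInstance
  unfold AbsIrr
  have e1 : ((X ^ p - C S : κ₀[X][X]).map (mapRingHom (algebraMap κ₀ k'))).map
      (algebraMap k'[X] (FractionRing k'[X])) =
      X ^ p - C (algebraMap k'[X] (FractionRing k'[X]) (S.map (algebraMap κ₀ k'))) := by
    simp [Polynomial.map_sub, Polynomial.map_pow]
  rw [e1]
  apply X_pow_sub_C_irreducible_of_prime hp'
  intro b hb
  set S' : k'[X] := S.map (algebraMap κ₀ k') with hS'
  -- `b` is integral
  have hint : IsIntegral k'[X] b := by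
    refine ⟨X ^ p - C S', monic_X_pow_sub_C _ hp'.ne_zero, ?_⟩
    simp [eval₂_sub, eval₂_pow, hb]
  obtain ⟨z, hz⟩ := (IsIntegrallyClosed.isIntegral_iff (R := k'[X]) (K := FractionRing k'[X])).1 hint
  have hzp : z ^ p = S' := by
    apply IsFractionRing.injective k'[X] (FractionRing k'[X])
    rw [map_pow, hz, hb]
  have hS'm : S'.Monic := hS.map _
  have hS'1 : S'.natDegree ≠ 0 := by
    rw [hS', natDegree_map]
    intro h0
    exact hS1 (hS.natDegree_eq_zero.1 h0)
  have hz0 : z ≠ 0 := by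
    rintro rfl
    rw [zero_pow hp'.ne_zero] at hzp
    exact hS'm.ne_zero hzp.symm
  have hzdeg : z.degree ≠ 0 := by
    intro h0
    apply hS'1
    have h1 : z.natDegree = 0 := natDegree_eq_zero_iff_degree_le_zero.2 h0.le
    rw [← hzp, natDegree_pow, h1, mul_zero]
  obtain ⟨r, hr⟩ := IsAlgClosed.exists_root z hzdeg
  have hrS : S'.eval r = 0 := by
    rw [← hzp, eval_pow, hr.eq_zero, zero_pow hp'.ne_zero]
  have hrs : aeval r s = 0 := by
    obtain ⟨T, hT⟩ := hdvd
    have h1 := congrArg (fun q : κ₀[X] => (q.map (algebraMap κ₀ k')).eval r) hT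
    simp only [Polynomial.map_mul, Polynomial.map_pow, eval_mul, eval_pow] at h1
    rw [← hS', hrS, zero_mul, Polynomial.map_map, ← IsScalarTower.algebraMap_eq] at h1
    have h2 := eq_zero_of_pow_eq_zero h1
    rwa [eval_map, ← aeval_def] at h2
  have hrκ : r ∈ κ₀ := hroots r hrs
  let r₀ : κ₀ := ⟨r, hrκ⟩
  have hdiv : (X - C r₀) ^ p ∣ S := by
    rw [← Polynomial.map_dvd_map (algebraMap κ₀ k') (algebraMap κ₀ k').injective
      ((monic_X_sub_C r₀).pow p)]
    have e2 : ((X - C r₀) ^ p).map (algebraMap κ₀ k') = (X - C r) ^ p := by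
      simp [r₀]
    rw [e2, ← hS', ← hzp]
    exact pow_dvd_pow_of_dvd (dvd_iff_isRoot.2 hr) p
  exact hfree _ (irreducible_X_sub_C r₀) hdiv

end Pool.Agent.Helper56.Thin.ABP
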